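import Mathlib

/-!
# A triplet cover of a binary phylogenetic tree that is not shellable

The tree has `14` leaves and `12` interior vertices.  The triplet cover consists of the `36` pairs
contained in `12` triples, one for each interior vertex.  No two triangles of this graph on the
leaves share an edge, so not even the first of the missing pairs can be added.
-/

set_option autoImplicit false

namespace Pool.Agent.Results.MP_66d22e_co.NotShellable

section Defs

variable {X V : Type}

/-- `T` is a binary phylogenetic `X`-tree, the leaf labelled `x` being `leaf x`: `T` is a tree, the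
leaves (the vertices of degree one) are labelled bijectively by `X`, and every other vertex has
degree three. -/
def IsPhyloTree (T : SimpleGraph V) (leaf : X → V) : Prop :=
  T.IsTree ∧ Function.Injective leaf ∧ Set.range leaf = {v | (T.neighborSet v).ncard = 1} ∧
    ∀ v, (T.neighborSet v).ncard = 1 ∨ (T.neighborSet v).ncard = 3

/-- `v` is an interior vertex. -/
def Interior (T : SimpleGraph V) (v : V) : Prop := (T.neighborSet v).ncard = 3

/-- The triple `abc` supports the interior vertex `v`: `a, b, c` lie in three different connected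
components of `T` with `v` and its incident edges removed, and `ab, ac, bc` belong to the set `S` of
pairs. (A set of 2-subsets of `X` is given as a simple graph on `X`.) -/
def Supports (T : SimpleGraph V) (leaf : X → V) (S : SimpleGraph X) (v : V) (a b c : X) : Prop :=
  leaf a ≠ v ∧ leaf b ≠ v ∧ leaf c ≠ v ∧
    ¬ (T.deleteIncidenceSet v).Reachable (leaf a) (leaf b) ∧
    ¬ (T.deleteIncidenceSet v).Reachable (leaf a) (leaf c) ∧
    ¬ (T.deleteIncidenceSet v).Reachable (leaf b) (leaf c) ∧
    S.Adj a b ∧ S.Adj a c ∧ S.Adj b c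

/-- `S` is a triplet cover for `T`: every interior vertex is supported by some triple. -/
def IsTripletCover (T : SimpleGraph V) (leaf : X → V) (S : SimpleGraph X) : Prop :=
  ∀ v, Interior T v → ∃ a b c, Supports T leaf S v a b c

/-- The restriction of `T` to `{x, a, y, b}` is the quartet `xa|yb`: the path from `x` to `a` and
the path from `y` to `b` are vertex-disjoint. -/
def Quartet (T : SimpleGraph V) (leaf : X → V) (x a y b : X) : Prop :=
  ∃ (p : T.Walk (leaf x) (leaf a)) (q : T.Walk (leaf y) (leaf b)), p.IsPath ∧ q.IsPath ∧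
    ∀ v, v ∈ p.support → v ∉ q.support

/-- `S` is `T`-shellable: the 2-subsets of `X` that are not in `S` admit an ordering
`e 0, e 1, …, e (m - 1)` such that for each `i` there are `a, b` with `e i = {a, b}` and distinct
`x, y ∈ X \ {a, b}` for which the restriction of `T` to `{a, b, x, y}` is the quartet `xa|yb`, and
every 2-subset of `{a, b, x, y}` other than `{a, b}` is in `S` or is one of the `e j`, `j < i`. -/
def Shellable (T : SimpleGraph V) (leaf : X → V) (S : SimpleGraph X) : Prop :=
  ∃ (m : ℕ) (e : Fin m → Sym2 X), Function.Injective e ∧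
    Set.range e = {z | ¬ z.IsDiag ∧ z ∉ S.edgeSet} ∧
    ∀ i, ∃ a b x y : X, e i = s(a, b) ∧ x ≠ y ∧ x ≠ a ∧ x ≠ b ∧ y ≠ a ∧ y ≠ b ∧
      Quartet T leaf x a y b ∧
      ∀ u ∈ ({a, b, x, y} : Set X), ∀ w ∈ ({a, b, x, y} : Set X), u ≠ w → s(u, w) ≠ s(a, b) →
        s(u, w) ∈ S.edgeSet ∨ ∃ j, j < i ∧ e j = s(u, w)

end Defs

/-! ### The tree -/

/-- the parent of a vertex (`0` is the root; `0, …, 11` are the interior vertices, `12 + x` is the
leaf `x`) -/
def parL : List ℕ :=
  [0, 0, 1, 2, 3, 4, 0, 0, 7, 8, 9, 10, 5, 10, 3, 6, 8, 1, 9, 11, 6, 4, 7, 11, 5, 2]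

/-- the parent of a vertex -/
def par (i : ℕ) : ℕ := parL.getD i 0

/-- the tree -/
def T : SimpleGraph (Fin 26) where
  Adj a b := a ≠ b ∧ (par a = b ∨ par b = a)
  symm := ⟨fun _ _ h => ⟨h.1.symm, h.2.symm⟩⟩
  loopless := ⟨fun _ h => h.1 rfl⟩

instance : DecidableRel T.Adj := fun a b =>
  inferInstanceAs (Decidable (a ≠ b ∧ (par a = b ∨ par b = a)))

/-- the leaves -/
def leaf (x : Fin 14) : Fin 26 := ⟨x + 12, by omega⟩

theorem par_lt : ∀ i : Fin 26, i ≠ 0 → par i < i := by decide

theorem reach_zero : ∀ n : ℕ, ∀ h : n < 26, T.Reachable ⟨n, h⟩ 0 := by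
  intro n
  induction n using Nat.strong_induction_on with
  | _ n ih =>
    intro h
    by_cases h0 : n = 0
    · subst h0
      exact SimpleGraph.Reachable.refl _
    · have h1 : par n < n := par_lt ⟨n, h⟩ (by simpa [Fin.ext_iff] using h0)
      have h2 : T.Adj ⟨n, h⟩ ⟨par n, by omega⟩ := by
        refine ⟨?_, Or.inl rfl⟩
        intro h3
        rw [Fin.mk.injEq] at h3
        omega
      exact h2.reachable.trans (ih _ h1 _)

theorem T_connected : T.Connected := by
  refine ⟨fun u v => ?_⟩
  exact (reach_zero u.1 u.2).trans (reach_zero v.1 v.2).symm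

theorem T_isTree : T.IsTree := by
  rw [SimpleGraph.isTree_iff_connected_and_card]
  refine ⟨T_connected, ?_⟩
  rw [Nat.card_eq_fintype_card, Nat.card_eq_fintype_card, ← SimpleGraph.edgeFinset_card]
  decide +kernel

theorem ncard_eq (v : Fin 26) :
    (T.neighborSet v).ncard = (Finset.univ.filter fun w => T.Adj v w).card := by
  rw [← Set.ncard_coe_finset]
  congr 1
  ext w
  simp

theorem T_phylo : IsPhyloTree T leaf := by
  refine ⟨T_isTree, ?_, ?_, ?_⟩
  · intro x y h
    unfold leaf at h
    rw [Fin.mk.injEq] at h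
    omega
  · ext v
    rw [Set.mem_ofPred_eq, ncard_eq]
    have key : ∀ v : Fin 26, (12 ≤ v.1) ↔ (Finset.univ.filter fun w => T.Adj v w).card = 1 := by
      decide +kernel
    rw [← key]
    constructor
    · rintro ⟨x, rfl⟩
      unfold leaf
      simp
    · intro h
      exact ⟨⟨v.1 - 12, by omega⟩, by unfold leaf; ext; simp; omega⟩
  · intro v
    rw [ncard_eq]
    have key : ∀ v : Fin 26, (Finset.univ.filter fun w => T.Adj v w).card = 1 ∨
      (Finset.univ.filter fun w => T.Adj v w).card = 3 := by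
      decide +kernel
    exact key v

/-! ### The triplet cover -/

/-- the triple of the interior vertex `v` -/
def tripL : List (Fin 14 × Fin 14 × Fin 14) :=
  [(5, 3, 4), (10, 2, 5), (11, 2, 13), (2, 12, 6), (10, 9, 0), (0, 3, 12), (3, 13, 8), (7, 8, 10),
    (9, 4, 6), (8, 6, 1), (1, 0, 11), (7, 4, 11)]

/-- the pair `x, y` is contained in one of the triples -/
def inTrip (x y : Fin 14) : Bool :=
  tripL.any fun t => (x == t.1 || x == t.2.1 || x == t.2.2) && (y == t.1 || y == t.2.1 || y == t.2.2)

theorem inTrip_symm : ∀ x y, inTrip x y = inTrip y x := by decide +kernel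

/-- the triplet cover -/
def S : SimpleGraph (Fin 14) where
  Adj x y := x ≠ y ∧ inTrip x y = true
  symm := ⟨fun x y h => ⟨h.1.symm, (inTrip_symm y x).trans h.2⟩⟩
  loopless := ⟨fun _ h => h.1 rfl⟩

instance : DecidableRel S.Adj := fun x y =>
  inferInstanceAs (Decidable (x ≠ y ∧ inTrip x y = true))

/-- the last vertex before `v` on the way from `u` to the root, or the root -/
def comp (v : ℕ) : ℕ → ℕ → ℕ
  | 0, u => u
  | k + 1, u => if u = 0 ∨ par u = v then u else comp v k (par u)

theorem comp_adj : ∀ v u w : Fin 26, T.Adj u w → u ≠ v → w ≠ v →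
    comp v 26 u = comp v 26 w := by decide +kernel

theorem comp_reach (v u w : Fin 26) (h : (T.deleteIncidenceSet v).Reachable u w) :
    comp v 26 u = comp v 26 w := by
  obtain ⟨p⟩ := h
  induction p with
  | nil => rfl
  | cons hadj _ ih =>
    rw [SimpleGraph.deleteIncidenceSet_adj] at hadj
    exact (comp_adj v _ _ hadj.1 hadj.2.1 hadj.2.2).trans ih

theorem S_cover : IsTripletCover T leaf S := by
  intro v hv
  unfold Interior at hv
  rw [ncard_eq] at hv
  have key : ∀ v : Fin 26, (Finset.univ.filter fun w => T.Adj v w).card = 3 →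
      ∃ a b c : Fin 14, leaf a ≠ v ∧ leaf b ≠ v ∧ leaf c ≠ v ∧
        comp v 26 (leaf a) ≠ comp v 26 (leaf b) ∧ comp v 26 (leaf a) ≠ comp v 26 (leaf c) ∧
        comp v 26 (leaf b) ≠ comp v 26 (leaf c) ∧ S.Adj a b ∧ S.Adj a c ∧ S.Adj b c := by
    decide +kernel
  obtain ⟨a, b, c, h1, h2, h3, h4, h5, h6, h7, h8, h9⟩ := key v hv
  exact ⟨a, b, c, h1, h2, h3, fun h => h4 (comp_reach _ _ _ h), fun h => h5 (comp_reach _ _ _ h),
    fun h => h6 (comp_reach _ _ _ h), h7, h8, h9⟩

theorem S_no_diamond : ∀ a b x y : Fin 14, a ≠ b → x ≠ y → S.Adj x a → S.Adj x b → S.Adj y a →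
    S.Adj y b → S.Adj x y → False := by decide +kernel

theorem not_shellable : ¬ Shellable T leaf S := by
  rintro ⟨m, e, -, hrange, h⟩
  have h0 : s((0 : Fin 14), 1) ∉ S.edgeSet ∨ s((0 : Fin 14), 2) ∉ S.edgeSet := by
    rw [SimpleGraph.mem_edgeSet, SimpleGraph.mem_edgeSet]
    decide +kernel
  have hm : 0 < m := by
    by_contra hm
    have hm0 : m = 0 := by omega
    subst hm0
    have hempty : Set.range e = ∅ := Set.range_eq_empty e
    rw [hempty] at hrange
    rcases h0 with h0 | h0
    · have : s((0 : Fin 14), 1) ∈ (∅ : Set (Sym2 (Fin 14))) := by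
        rw [hrange]
        exact ⟨by rw [Sym2.mk_isDiag_iff]; decide, h0⟩
      exact this
    · have : s((0 : Fin 14), 2) ∈ (∅ : Set (Sym2 (Fin 14))) := by
        rw [hrange]
        exact ⟨by rw [Sym2.mk_isDiag_iff]; decide, h0⟩
      exact this
  obtain ⟨a, b, x, y, hab, hxy, hxa, hxb, hya, hyb, -, hpairs⟩ := h ⟨0, hm⟩
  have hne : a ≠ b := by
    intro hab'
    have : e ⟨0, hm⟩ ∈ {z : Sym2 (Fin 14) | ¬ z.IsDiag ∧ z ∉ S.edgeSet} := by
      rw [← hrange]
      exact ⟨_, rfl⟩
    apply this.1
    rw [hab, hab']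
    exact Sym2.mk_isDiag_iff.2 rfl
  have hadj : ∀ u ∈ ({a, b, x, y} : Set (Fin 14)), ∀ w ∈ ({a, b, x, y} : Set (Fin 14)), u ≠ w →
      s(u, w) ≠ s(a, b) → S.Adj u w := by
    intro u hu w hw huw hn
    rcases hpairs u hu w hw huw hn with h1 | ⟨j, hj, -⟩
    · exact h1
    · exact absurd hj (by simp [Fin.lt_def])
  refine S_no_diamond a b x y hne hxy ?_ ?_ ?_ ?_ ?_
  · exact hadj x (by simp) a (by simp) hxa (by simp [hxa, hxb])
  · exact hadj x (by simp) b (by simp) hxb (by simp [hxa, hxb])
  · exact hadj y (by simp) a (by simp) hya (by simp [hya, hyb])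
  · exact hadj y (by simp) b (by simp) hyb (by simp [hya, hyb])
  · exact hadj x (by simp) y (by simp) hxy (by simp [hxa, hxb])

/-- There are a binary phylogenetic `X`-tree with `|X| = 14` leaves and a triplet cover for it that
is not shellable. -/
theorem result : ∃ (T : SimpleGraph (Fin 26)) (leaf : Fin 14 → Fin 26) (S : SimpleGraph (Fin 14)),
    IsPhyloTree T leaf ∧ IsTripletCover T leaf S ∧ ¬ Shellable T leaf S :=
  ⟨T, leaf, S, T_phylo, S_cover, not_shellable⟩

end Pool.Agent.Results.MP_66d22e_co.NotShellable
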